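import Mathlib

/-!
# MP_c2e62a_gt (Goldberg): every rotor in a regular triangular prism is a ball

Outline of the proof. Being a rotor means that the support function `h` of `K` has a constant
sum `c` over all triples of coplanar unit vectors with sum zero. The six edge directions of a
regular tetrahedron (the roots of `A₃`) give `h x + h (-x) = 2 c / 3`, so `K` has constant
width, and the support map `X` is continuous. The relation on triples expresses a maximum
property of `X`; it implies that the normal lines of `K` in two directions at `60°` are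
coplanar, hence meet. Three pairwise meeting lines with linearly independent directions are
concurrent; since the dihedral angle `arccos (1/3)` of the regular tetrahedron is an irrational
multiple of `π`, all normal lines pass through one point `o`, and then the distance of `X u`
from `o` is constant.
-/

open Set Metric
open scoped RealInnerProductSpace

namespace Pool.Agent.Results.MP_c2e62a_gt.TriangularRotors

/-- Euclidean three-space. -/
abbrev E3 : Type := EuclideanSpace ℝ (Fin 3)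

/-- A rotation: a linear isometry of `ℝ³` with determinant `1`. -/
def IsRotation (ρ : E3 ≃ₗᵢ[ℝ] E3) : Prop :=
  LinearMap.det (ρ.toLinearEquiv : E3 →ₗ[ℝ] E3) = 1

/-- The unit vector of the `z`-axis. -/
noncomputable def ez : E3 := EuclideanSpace.single 2 1

/-- The cylinder `S × ℝ` over a set `S` of the plane `{z = 0}`. -/
def cyl (S : Set E3) : Set E3 := {p | ∃ q ∈ S, ∃ s : ℝ, p = q + s • ez}

/-- `A`, `B`, `C` are the vertices of an equilateral triangle in the plane `{z = 0}`. -/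
def IsEquilateral (A B C : E3) : Prop :=
  A 2 = 0 ∧ B 2 = 0 ∧ C 2 = 0 ∧ 0 < dist A B ∧ dist A B = dist B C ∧ dist B C = dist C A

/-- `K` is a rotor in the prism over the triangle `ABC`: for every rotation `ρ` there is a
translation vector `t` such that `ρ K + t` lies in the prism and meets its three faces. -/
def IsRotor (A B C : E3) (K : Set E3) : Prop :=
  ∀ ρ : E3 ≃ₗᵢ[ℝ] E3, IsRotation ρ → ∃ t : E3,
    (fun x => ρ x + t) '' K ⊆ cyl (convexHull ℝ {A, B, C}) ∧
    (((fun x => ρ x + t) '' K) ∩ cyl (segment ℝ A B)).Nonempty ∧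
    (((fun x => ρ x + t) '' K) ∩ cyl (segment ℝ B C)).Nonempty ∧
    (((fun x => ρ x + t) '' K) ∩ cyl (segment ℝ C A)).Nonempty

/-! ### Linear algebra in `ℝ³` -/

lemma exists_unit_orth (x y : E3) : ∃ n : E3, ‖n‖ = 1 ∧ ⟪x, n⟫ = 0 ∧ ⟪y, n⟫ = 0 := by
  classical
  set W : Submodule ℝ E3 := Submodule.span ℝ ({x, y} : Set E3) with hW
  have h1 : Module.finrank ℝ W ≤ 2 := by
    have := finrank_span_finset_le_card (R := ℝ) ({x, y} : Finset E3)
    have h2 : ({x, y} : Finset E3).card ≤ 2 := Finset.card_le_two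
    simp only [Finset.coe_insert, Finset.coe_singleton] at this
    exact le_trans this h2
  have h2 : Module.finrank ℝ W + Module.finrank ℝ Wᗮ = 3 := by
    rw [Submodule.finrank_add_finrank_orthogonal]; simp
  have h3 : Wᗮ ≠ ⊥ := by
    intro h
    rw [h, finrank_bot] at h2
    omega
  obtain ⟨v, hv, hv0⟩ := Submodule.exists_mem_ne_zero_of_ne_bot h3
  have hvn : 0 < ‖v‖ := norm_pos_iff.2 hv0
  rw [Submodule.mem_orthogonal] at hv
  refine ⟨(‖v‖)⁻¹ • v, ?_, ?_, ?_⟩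
  · rw [norm_smul, norm_inv, norm_norm, inv_mul_cancel₀ hvn.ne']
  · rw [real_inner_smul_right, hv x (Submodule.subset_span (by simp)), mul_zero]
  · rw [real_inner_smul_right, hv y (Submodule.subset_span (by simp)), mul_zero]

/-- `x, b, n` form an orthonormal frame. -/
structure Frame (x b n : E3) : Prop where
  x1 : ‖x‖ = 1
  b1 : ‖b‖ = 1
  n1 : ‖n‖ = 1
  xb : ⟪x, b⟫ = 0
  xn : ⟪x, n⟫ = 0
  bn : ⟪b, n⟫ = 0

lemma Frame.orthonormal {x b n : E3} (h : Frame x b n) : Orthonormal ℝ ![x, b, n] := by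
  rw [orthonormal_iff_ite]
  intro i j
  fin_cases i <;> fin_cases j <;>
    simp [h.xb, h.xn, h.bn, real_inner_comm x b, real_inner_comm x n,
      real_inner_comm b n, h.x1, h.b1, h.n1]

/-- The orthonormal basis of a frame. -/
noncomputable def Frame.basis {x b n : E3} (h : Frame x b n) : OrthonormalBasis (Fin 3) ℝ E3 :=
  (basisOfOrthonormalOfCardEqFinrank h.orthonormal (by simp)).toOrthonormalBasis (by
    simpa using h.orthonormal)

lemma Frame.basis_coe {x b n : E3} (h : Frame x b n) : ⇑h.basis = ![x, b, n] := by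
  simp [Frame.basis]

lemma Frame.expand {x b n : E3} (h : Frame x b n) (v : E3) :
    v = ⟪v, x⟫ • x + ⟪v, b⟫ • b + ⟪v, n⟫ • n := by
  have := h.basis.sum_repr' v
  rw [Fin.sum_univ_three] at this
  simp only [h.basis_coe] at this
  simp only [Matrix.cons_val_zero, Matrix.cons_val_one, Matrix.cons_val] at this
  rw [real_inner_comm x v, real_inner_comm b v, real_inner_comm n v]
  exact this.symm

lemma Frame.neg {x b n : E3} (h : Frame x b n) : Frame x b (-n) :=
  ⟨h.x1, h.b1, by rw [norm_neg, h.n1], h.xb, by rw [inner_neg_right, h.xn, neg_zero],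
    by rw [inner_neg_right, h.bn, neg_zero]⟩

/-- There is a rotation carrying the frame `(x, b, n)` to `(x', b', n')` or `(x', b', -n')`. -/
lemma exists_rotation {x b n x' b' n' : E3} (h : Frame x b n) (h' : Frame x' b' n') :
    ∃ ρ : E3 ≃ₗᵢ[ℝ] E3, IsRotation ρ ∧ ρ x = x' ∧ ρ b = b' := by
  have key : ∀ m : E3, ∀ hm : Frame x' b' m, h.basis.toBasis.det hm.basis = 1 →
      ∃ ρ : E3 ≃ₗᵢ[ℝ] E3, IsRotation ρ ∧ ρ x = x' ∧ ρ b = b' := by
    intro m hm hdet
    refine ⟨h.basis.equiv hm.basis (Equiv.refl _), ?_, ?_, ?_⟩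
    · unfold IsRotation
      rw [← hdet]
      have h3 := Module.Basis.det_basis hm.basis.toBasis h.basis.toBasis
      have h4 : (hm.basis.toBasis : Fin 3 → E3) = hm.basis := by simp
      rw [h4] at h3
      rw [← h3]
      congr 1
    · have := h.basis.equiv_apply_basis hm.basis (Equiv.refl _) 0
      rw [h.basis_coe, hm.basis_coe] at this
      simpa using this
    · have := h.basis.equiv_apply_basis hm.basis (Equiv.refl _) 1
      rw [h.basis_coe, hm.basis_coe] at this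
      simpa using this
  rcases h.basis.det_to_matrix_orthonormalBasis_real h'.basis with h1 | h1
  · exact key n' h' h1
  · refine key (-n') h'.neg ?_
    rw [h'.neg.basis_coe]
    rw [h'.basis_coe] at h1
    have h2 : (![x', b', -n'] : Fin 3 → E3) = Function.update ![x', b', n'] 2 (-n') := by
      ext i
      fin_cases i <;> simp
    have h3 : (![x', b', n'] : Fin 3 → E3) = Function.update ![x', b', n'] 2 n' := by
      ext i
      fin_cases i <;> simp
    rw [h2, AlternatingMap.map_update_neg, ← h3, h1]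
    norm_num

/-! ### The support map

`X u` is a point of `K` where `⟪·, u⟫` is maximal. -/

/-- `X` picks a support point of `K` in every direction. -/
def IsSupp (K : Set E3) (X : E3 → E3) : Prop :=
  ∀ u, X u ∈ K ∧ ∀ q ∈ K, ⟪q, u⟫ ≤ ⟪X u, u⟫

lemma exists_supp {K : Set E3} (hK : IsCompact K) (hne : K.Nonempty) :
    ∃ X : E3 → E3, IsSupp K X := by
  have : ∀ u : E3, ∃ p ∈ K, ∀ q ∈ K, ⟪q, u⟫ ≤ ⟪p, u⟫ := by
    intro u
    obtain ⟨p, hp, hmax⟩ := hK.exists_isMaxOn hne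
      (f := fun q : E3 => ⟪q, u⟫) (by fun_prop)
    exact ⟨p, hp, fun q hq => hmax hq⟩
  choose X hX using this
  exact ⟨X, hX⟩

/-- The relation on triples with sum zero. -/
def TripleSum (X : E3 → E3) (c : ℝ) : Prop :=
  ∀ x y z : E3, ‖x‖ = 1 → ‖y‖ = 1 → ‖z‖ = 1 → x + y + z = 0 →
    ⟪X x, x⟫ + ⟪X y, y⟫ + ⟪X z, z⟫ = c

section core

variable {K : Set E3} {X : E3 → E3} {c : ℝ}

lemma norm_one_of_sq {v : E3} (h : ⟪v, v⟫ = 1) : ‖v‖ = 1 := by
  rw [real_inner_self_eq_norm_sq] at h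
  nlinarith [norm_nonneg v]

/-- The values of the width function at orthogonal directions agree (roots of `A₃`). -/
lemma width_orth (hsum : TripleSum X c) {x y z : E3} (h : Frame x y z) :
    ⟪X x, x⟫ + ⟪X (-x), -x⟫ = ⟪X y, y⟫ + ⟪X (-y), -y⟫ := by
  set H : E3 → ℝ := fun v => ⟪X v, v⟫ with hH
  have hrel : ∀ a b c' : E3, ‖a‖ = 1 → ‖b‖ = 1 → ‖c'‖ = 1 → a + b = c' →
      H a + H b + H (-c') = c ∧ H (-a) + H (-b) + H c' = c := by
    intro a b c' ha hb hc hab
    constructor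
    · exact hsum a b (-c') ha hb (by rw [norm_neg, hc]) (by rw [hab]; simp)
    · exact hsum (-a) (-b) c' (by rw [norm_neg, ha]) (by rw [norm_neg, hb]) hc
        (by rw [← hab]; abel)
  set s : ℝ := (√2)⁻¹ with hs
  have hs2 : s * s = 1 / 2 := by
    rw [hs, ← mul_inv, Real.mul_self_sqrt (by norm_num)]; norm_num
  have hxx : ⟪x, x⟫ = 1 := by rw [real_inner_self_eq_norm_sq, h.x1]; norm_num
  have hyy : ⟪y, y⟫ = 1 := by rw [real_inner_self_eq_norm_sq, h.b1]; norm_num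
  have hzz : ⟪z, z⟫ = 1 := by rw [real_inner_self_eq_norm_sq, h.n1]; norm_num
  have hxy := h.xb
  have hxz := h.xn
  have hyz := h.bn
  have hyx : ⟪y, x⟫ = 0 := by rw [real_inner_comm, hxy]
  have hzx : ⟪z, x⟫ = 0 := by rw [real_inner_comm, hxz]
  have hzy : ⟪z, y⟫ = 0 := by rw [real_inner_comm, hyz]
  have hnorm : ∀ p q : ℝ, p * p = 1 / 4 → q * q = 1 / 4 → ‖p • x + q • y + s • z‖ = 1 := by
    intro p q hp hq
    apply norm_one_of_sq
    simp only [inner_add_left, inner_add_right, real_inner_smul_left, real_inner_smul_right,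
      hxx, hyy, hzz, hxy, hxz, hyz, hyx, hzx, hzy]
    nlinarith
  set r13 : E3 := (1 / 2 : ℝ) • x + (-(1 / 2) : ℝ) • y + s • z with h13
  set r14 : E3 := (1 / 2 : ℝ) • x + (1 / 2 : ℝ) • y + s • z with h14
  set r23 : E3 := (-(1 / 2) : ℝ) • x + (-(1 / 2) : ℝ) • y + s • z with h23
  set r24 : E3 := (-(1 / 2) : ℝ) • x + (1 / 2 : ℝ) • y + s • z with h24
  have n13 : ‖r13‖ = 1 := hnorm _ _ (by norm_num) (by norm_num)
  have n14 : ‖r14‖ = 1 := hnorm _ _ (by norm_num) (by norm_num)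
  have n23 : ‖r23‖ = 1 := hnorm _ _ (by norm_num) (by norm_num)
  have n24 : ‖r24‖ = 1 := hnorm _ _ (by norm_num) (by norm_num)
  obtain ⟨e1, e2⟩ := hrel x r23 r13 h.x1 n23 n13 (by rw [h23, h13]; module)
  obtain ⟨e3, e4⟩ := hrel x r24 r14 h.x1 n24 n14 (by rw [h24, h14]; module)
  obtain ⟨e5, e6⟩ := hrel r13 y r14 n13 h.b1 n14 (by rw [h13, h14]; module)
  obtain ⟨e7, e8⟩ := hrel r23 y r24 n23 h.b1 n24 (by rw [h23, h24]; module)
  show H x + H (-x) = H y + H (-y)
  linarith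

/-- `K` has constant width `2 c / 3`. -/
lemma width_const (hsum : TripleSum X c) {x : E3} (hx : ‖x‖ = 1) :
    ⟪X x, x⟫ + ⟪X (-x), -x⟫ = 2 * c / 3 := by
  have hconst : ∀ x y : E3, ‖x‖ = 1 → ‖y‖ = 1 →
      ⟪X x, x⟫ + ⟪X (-x), -x⟫ = ⟪X y, y⟫ + ⟪X (-y), -y⟫ := by
    intro x y hx hy
    obtain ⟨z, hz, hxz, hyz⟩ := exists_unit_orth x y
    obtain ⟨p, hp, hxp, hzp⟩ := exists_unit_orth x z
    obtain ⟨q, hq, hyq, hzq⟩ := exists_unit_orth y z
    have h1 : Frame x z p := ⟨hx, hz, hp, hxz, hxp, hzp⟩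
    have h2 : Frame y z q := ⟨hy, hz, hq, hyz, hyq, hzq⟩
    rw [width_orth hsum h1, width_orth hsum h2]
  -- an equilateral triple
  obtain ⟨b, hb, hxb, -⟩ := exists_unit_orth x x
  set r : ℝ := √3 / 2 with hr
  have hr2 : r * r = 3 / 4 := by
    rw [hr]
    nlinarith [Real.mul_self_sqrt (show (0 : ℝ) ≤ 3 by norm_num)]
  have hxx : ⟪x, x⟫ = 1 := by rw [real_inner_self_eq_norm_sq, hx]; norm_num
  have hbb : ⟪b, b⟫ = 1 := by rw [real_inner_self_eq_norm_sq, hb]; norm_num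
  have hbx : ⟪b, x⟫ = 0 := by rw [real_inner_comm, hxb]
  have hnorm : ∀ p q : ℝ, p * p + q * q = 1 → ‖p • x + q • b‖ = 1 := by
    intro p q hpq
    apply norm_one_of_sq
    simp only [inner_add_left, inner_add_right, real_inner_smul_left, real_inner_smul_right,
      hxx, hbb, hxb, hbx]
    nlinarith
  set y : E3 := (-(1 / 2) : ℝ) • x + r • b with hy
  set z : E3 := (-(1 / 2) : ℝ) • x + (-r) • b with hz
  have ny : ‖y‖ = 1 := hnorm _ _ (by nlinarith)
  have nz : ‖z‖ = 1 := hnorm _ _ (by nlinarith)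
  have h0 : x + y + z = 0 := by rw [hy, hz]; module
  have e1 := hsum x y z hx ny nz h0
  have e2 := hsum (-x) (-y) (-z) (by rw [norm_neg, hx]) (by rw [norm_neg, ny])
    (by rw [norm_neg, nz]) (by
      have : -x + -y + -z = -(x + y + z) := by abel
      rw [this, h0, neg_zero])
  have e3 := hconst x y hx ny
  have e4 := hconst x z hx nz
  linarith

/-- The diameter of a body of constant width `w` is at most `w`. -/
lemma dist_le_width (hX : IsSupp K X) {w : ℝ} (hw0 : 0 ≤ w)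
    (hw : ∀ x : E3, ‖x‖ = 1 → ⟪X x, x⟫ + ⟪X (-x), -x⟫ = w) {p q : E3}
    (hp : p ∈ K) (hq : q ∈ K) : ‖p - q‖ ≤ w := by
  rcases eq_or_ne (p - q) 0 with h0 | h0
  · rw [h0, norm_zero]; exact hw0
  · have hn : 0 < ‖p - q‖ := norm_pos_iff.2 h0
    set v : E3 := (‖p - q‖)⁻¹ • (p - q) with hv
    have hv1 : ‖v‖ = 1 := by rw [hv, norm_smul, norm_inv, norm_norm, inv_mul_cancel₀ hn.ne']
    have h1 := (hX v).2 p hp
    have h2 := (hX (-v)).2 q hq
    have h3 := hw v hv1
    rw [inner_neg_right] at h2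
    have h4 : ⟪p - q, v⟫ = ‖p - q‖ := by
      rw [hv, real_inner_smul_right, real_inner_self_eq_norm_sq, pow_two, ← mul_assoc,
        inv_mul_cancel₀ hn.ne', one_mul]
    rw [inner_sub_left] at h4
    linarith

/-- Opposite support points of a body of constant width `w`. -/
lemma supp_opp (hX : IsSupp K X) {w : ℝ} (hw0 : 0 ≤ w)
    (hw : ∀ x : E3, ‖x‖ = 1 → ⟪X x, x⟫ + ⟪X (-x), -x⟫ = w) {p q u : E3}
    (hu : ‖u‖ = 1) (hp : p ∈ K) (hq : q ∈ K) (hpq : w ≤ ⟪p - q, u⟫) : p - q = w • u := by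
  have hdist : ‖p - q‖ ≤ w := dist_le_width hX hw0 hw hp hq
  have h5 : ‖p - q - w • u‖ ^ 2 ≤ 0 := by
    rw [norm_sub_sq_real, real_inner_smul_right, norm_smul, hu, Real.norm_of_nonneg hw0]
    nlinarith [norm_nonneg (p - q)]
  have h6 : ‖p - q - w • u‖ = 0 := by
    have := sq_nonneg ‖p - q - w • u‖
    have h7 : ‖p - q - w • u‖ ^ 2 = 0 := le_antisymm h5 this
    exact pow_eq_zero_iff (two_ne_zero) |>.1 h7
  exact sub_eq_zero.1 (norm_eq_zero.1 h6)

/-- Modulus of continuity of the support map of a body of constant width. -/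
lemma supp_cont (hX : IsSupp K X) {w : ℝ} (hw0 : 0 ≤ w)
    (hw : ∀ x : E3, ‖x‖ = 1 → ⟪X x, x⟫ + ⟪X (-x), -x⟫ = w)
    (hopp : ∀ x : E3, ‖x‖ = 1 → X x - X (-x) = w • x) {u v : E3}
    (_hu : ‖u‖ = 1) (hv : ‖v‖ = 1) :
    ‖X u - X v‖ ^ 2 ≤ 2 * w ^ 2 * (1 - ⟪u, v⟫ + ‖u - v‖) := by
  set a : E3 := X (-v) with ha
  have hXv : X v = a + w • v := by rw [← hopp v hv]; abel
  have hd : ‖X u - a‖ ≤ w := dist_le_width hX hw0 hw (hX u).1 (hX (-v)).1
  have h1 : ⟪X v, u⟫ ≤ ⟪X u, u⟫ := (hX u).2 _ (hX v).1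
  have h2 : w * ⟪u, v⟫ ≤ ⟪X u - a, u⟫ := by
    rw [hXv, inner_add_left, real_inner_smul_left, real_inner_comm u v] at h1
    rw [inner_sub_left]
    linarith
  have h3 : ⟪X u - a, u - v⟫ ≤ w * ‖u - v‖ := by
    refine (real_inner_le_norm _ _).trans ?_
    gcongr
  have h4 : ⟪X u - a, v⟫ = ⟪X u - a, u⟫ - ⟪X u - a, u - v⟫ := by
    rw [inner_sub_right]; ring
  have h5 : X u - X v = (X u - a) - w • v := by rw [hXv]; abel
  rw [h5, norm_sub_sq_real, real_inner_smul_right, norm_smul, hv, Real.norm_of_nonneg hw0, h4]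
  have h6 : ‖X u - a‖ ^ 2 ≤ w ^ 2 := by
    have := norm_nonneg (X u - a)
    nlinarith
  nlinarith

/-- A linear function on the circle that is maximal at `(1, 0)`. -/
lemma circle_max {A B : ℝ} (h : ∀ p q : ℝ, p * p + q * q = 1 → A * p + B * q ≤ A) : B = 0 := by
  by_contra hB
  have hBB : 0 < B * B := mul_self_pos.2 hB
  have hpos : 0 < A * A + B * B := by
    nlinarith [mul_self_nonneg A]
  set s : ℝ := √(A * A + B * B) with hs
  have hs0 : 0 < s := Real.sqrt_pos.2 hpos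
  have hss : s * s = A * A + B * B := Real.mul_self_sqrt hpos.le
  have h1 := h (A / s) (B / s) (by field_simp; nlinarith)
  have h2 : A * (A / s) + B * (B / s) = s := by
    field_simp
    nlinarith
  rw [h2] at h1
  nlinarith

/-- Normal lines in directions at `60°` are coplanar. -/
lemma coplanar (hX : IsSupp K X) (hsum : TripleSum X c) {w : ℝ}
    (hopp : ∀ x : E3, ‖x‖ = 1 → X x - X (-x) = w • x) {x y n : E3}
    (hx : ‖x‖ = 1) (hy : ‖y‖ = 1) (hn : ‖n‖ = 1) (hxy : ⟪x, y⟫ = 1 / 2)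
    (hxn : ⟪x, n⟫ = 0) (hyn : ⟪y, n⟫ = 0) : ⟪X x - X y, n⟫ = 0 := by
  set r : ℝ := √3 / 2 with hr
  have hr2 : r * r = 3 / 4 := by
    rw [hr]
    nlinarith [Real.mul_self_sqrt (show (0 : ℝ) ≤ 3 by norm_num)]
  have hrpos : 0 < r := by rw [hr]; positivity
  have hxx : ⟪x, x⟫ = 1 := by rw [real_inner_self_eq_norm_sq, hx]; norm_num
  have hyy : ⟪y, y⟫ = 1 := by rw [real_inner_self_eq_norm_sq, hy]; norm_num
  have hnn : ⟪n, n⟫ = 1 := by rw [real_inner_self_eq_norm_sq, hn]; norm_num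
  have hyx : ⟪y, x⟫ = 1 / 2 := by rw [real_inner_comm, hxy]
  have hnx : ⟪n, x⟫ = 0 := by rw [real_inner_comm, hxn]
  have hny : ⟪n, y⟫ = 0 := by rw [real_inner_comm, hyn]
  set b : E3 := (2 * r)⁻¹ • (x + y) with hb
  have hrb : r • b = (1 / 2 : ℝ) • (x + y) := by
    rw [hb, smul_smul]; congr 1; field_simp
  have hprb : ∀ s : ℝ, (s * r) • b = (s * (1 / 2)) • (x + y) := by
    intro s; rw [mul_smul, hrb, smul_smul]
  set u : E3 := y - x with hu
  have hu1 : ‖u‖ = 1 := by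
    apply norm_one_of_sq
    rw [hu]
    simp only [inner_sub_left, inner_sub_right, hxx, hyy, hxy, hyx]
    norm_num
  set D : E3 := X x - X (-y) with hD
  have key : ∀ p q : ℝ, p * p + q * q = 1 → ⟪D, b⟫ * p + ⟪D, n⟫ * q ≤ ⟪D, b⟫ := by
    intro p q hpq
    set u2 : E3 := (-(1 / 2) : ℝ) • u + (p * (1 / 2)) • (x + y) + (r * q) • n with hu2
    set u3 : E3 := (-(1 / 2) : ℝ) • u + (-(p * (1 / 2))) • (x + y) + (-(r * q)) • n with hu3
    have hn2 : ∀ s t : ℝ, s * s = p * p / 4 → t * t = 3 / 4 * (q * q) →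
        ‖(-(1 / 2) : ℝ) • u + s • (x + y) + t • n‖ = 1 := by
      intro s t hs ht
      apply norm_one_of_sq
      rw [hu]
      simp only [inner_add_left, inner_add_right, real_inner_smul_left, real_inner_smul_right,
        inner_sub_left, inner_sub_right, hxx, hyy, hnn, hxy, hyx, hxn, hnx, hyn, hny]
      nlinarith
    have n2 : ‖u2‖ = 1 := hn2 _ _ (by ring) (by nlinarith)
    have n3 : ‖u3‖ = 1 := hn2 _ _ (by ring) (by nlinarith)
    have e1 := hsum u u2 u3 hu1 n2 n3 (by rw [hu2, hu3]; module)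
    have e2 := hsum u x (-y) hu1 hx (by rw [norm_neg, hy]) (by rw [hu]; abel)
    have e3 := (hX u2).2 _ (hX x).1
    have e4 := (hX u3).2 _ (hX (-y)).1
    have e5 : ⟪X x, u2⟫ = -(1 / 2) * ⟪X x, u⟫ + p * r * ⟪X x, b⟫ + r * q * ⟪X x, n⟫ := by
      have : u2 = (-(1 / 2) : ℝ) • u + (p * r) • b + (r * q) • n := by
        rw [hu2, mul_smul p r b, hrb, smul_smul]
      rw [this]
      simp only [inner_add_right, real_inner_smul_right]
    have e6 : ⟪X (-y), u3⟫ =
        -(1 / 2) * ⟪X (-y), u⟫ - p * r * ⟪X (-y), b⟫ - r * q * ⟪X (-y), n⟫ := by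
      have : u3 = (-(1 / 2) : ℝ) • u + (-p * r) • b + (-(r * q)) • n := by
        rw [hu3, hprb, neg_mul]
      rw [this]
      simp only [inner_add_right, real_inner_smul_right]
      ring
    have e7 : ⟪X x, x⟫ = -(1 / 2) * ⟪X x, u⟫ + r * ⟪X x, b⟫ := by
      have : x = (-(1 / 2) : ℝ) • u + r • b := by rw [hrb, hu]; module
      conv_lhs => rw [show ⟪X x, x⟫ = ⟪X x, (-(1 / 2) : ℝ) • u + r • b⟫ by rw [← this]]
      simp only [inner_add_right, real_inner_smul_right]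
    have e8 : ⟪X (-y), -y⟫ = -(1 / 2) * ⟪X (-y), u⟫ - r * ⟪X (-y), b⟫ := by
      have : -y = (-(1 / 2) : ℝ) • u + (-1 * r) • b := by rw [hprb, hu]; module
      conv_lhs => rw [show ⟪X (-y), -y⟫ = ⟪X (-y), (-(1 / 2) : ℝ) • u + (-1 * r) • b⟫ by
        rw [← this]]
      simp only [inner_add_right, real_inner_smul_right]
      ring
    rw [hD, inner_sub_left, inner_sub_left]
    have e9 : r * ((⟪X x, b⟫ - ⟪X (-y), b⟫) * p + (⟪X x, n⟫ - ⟪X (-y), n⟫) * q) ≤
        r * (⟪X x, b⟫ - ⟪X (-y), b⟫) := by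
      nlinarith
    exact le_of_mul_le_mul_left e9 hrpos
  have h0 := circle_max key
  have h1 : X (-y) = X y - w • y := by rw [← hopp y hy]; abel
  rw [hD, h1] at h0
  have h2 : X x - (X y - w • y) = (X x - X y) + w • y := by abel
  rw [h2, inner_add_left, real_inner_smul_left, hyn, mul_zero, add_zero] at h0
  exact h0

/-! ### All normal lines pass through one point -/

/-- The normal line of `K` at `X x` passes through `o`. -/
def On (X : E3 → E3) (o x : E3) : Prop := ∃ s : ℝ, X x = o + s • x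

/-- Normal lines in directions at `60°` are coplanar. -/
def Copl (X : E3 → E3) : Prop :=
  ∀ x y n : E3, ‖x‖ = 1 → ‖y‖ = 1 → ‖n‖ = 1 → ⟪x, y⟫ = 1 / 2 → ⟪x, n⟫ = 0 → ⟪y, n⟫ = 0 →
    ⟪X x - X y, n⟫ = 0

lemma frame_of_sixty {x y n : E3} (hx : ‖x‖ = 1) (hy : ‖y‖ = 1) (hn : ‖n‖ = 1)
    (hxy : ⟪x, y⟫ = 1 / 2) (hxn : ⟪x, n⟫ = 0) (hyn : ⟪y, n⟫ = 0) :
    Frame x ((√3 / 2)⁻¹ • (y - (1 / 2 : ℝ) • x)) n := by
  set r : ℝ := √3 / 2 with hr
  have hr2 : r * r = 3 / 4 := by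
    rw [hr]
    nlinarith [Real.mul_self_sqrt (show (0 : ℝ) ≤ 3 by norm_num)]
  have hrpos : 0 < r := by rw [hr]; positivity
  have hxx : ⟪x, x⟫ = 1 := by rw [real_inner_self_eq_norm_sq, hx]; norm_num
  have hyy : ⟪y, y⟫ = 1 := by rw [real_inner_self_eq_norm_sq, hy]; norm_num
  have hyx : ⟪y, x⟫ = 1 / 2 := by rw [real_inner_comm, hxy]
  refine ⟨hx, ?_, hn, ?_, hxn, ?_⟩
  · apply norm_one_of_sq
    simp only [inner_sub_left, inner_sub_right, real_inner_smul_left, real_inner_smul_right,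
      hxx, hyy, hxy, hyx]
    field_simp
    nlinarith
  · simp only [inner_sub_right, real_inner_smul_right, hxx, hxy]
    norm_num
  · simp only [inner_sub_left, real_inner_smul_left, hxn, hyn]
    norm_num

lemma sub_mem_span (hc : Copl X) {x y : E3} (hx : ‖x‖ = 1) (hy : ‖y‖ = 1)
    (hxy : ⟪x, y⟫ = 1 / 2) : ∃ a b : ℝ, X x - X y = a • x + b • y := by
  obtain ⟨n, hn, hxn, hyn⟩ := exists_unit_orth x y
  have hF := frame_of_sixty hx hy hn hxy hxn hyn
  have h1 := hF.expand (X x - X y)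
  rw [hc x y n hx hy hn hxy hxn hyn, zero_smul, add_zero] at h1
  set α : ℝ := ⟪X x - X y, x⟫
  set β : ℝ := ⟪X x - X y, (√3 / 2)⁻¹ • (y - (1 / 2 : ℝ) • x)⟫
  refine ⟨α - β * (√3 / 2)⁻¹ * (1 / 2), β * (√3 / 2)⁻¹, ?_⟩
  rw [h1]
  module

lemma on_pair (hc : Copl X) {x y : E3} (hx : ‖x‖ = 1) (hy : ‖y‖ = 1)
    (hxy : ⟪x, y⟫ = 1 / 2) : ∃ o : E3, On X o x ∧ On X o y := by
  obtain ⟨a, b, hab⟩ := sub_mem_span hc hx hy hxy
  refine ⟨X x - a • x, ⟨a, by abel⟩, ⟨-b, ?_⟩⟩
  have : X x = X y + (a • x + b • y) := by rw [← hab]; abel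
  rw [this]
  module

lemma on_third (hc : Copl X) {o x y z : E3} (hx : ‖x‖ = 1) (hy : ‖y‖ = 1) (hz : ‖z‖ = 1)
    (hxy : ⟪x, y⟫ = 1 / 2) (hxz : ⟪x, z⟫ = 1 / 2) (hyz : ⟪y, z⟫ = 1 / 2)
    (ox : On X o x) (oy : On X o y) : On X o z := by
  obtain ⟨s, hs⟩ := ox
  obtain ⟨t, ht⟩ := oy
  obtain ⟨a, c', h1⟩ := sub_mem_span hc hx hz hxz
  obtain ⟨b, d, h2⟩ := sub_mem_span hc hy hz hyz
  have hxx : ⟪x, x⟫ = 1 := by rw [real_inner_self_eq_norm_sq, hx]; norm_num
  have hyy : ⟪y, y⟫ = 1 := by rw [real_inner_self_eq_norm_sq, hy]; norm_num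
  have hzz : ⟪z, z⟫ = 1 := by rw [real_inner_self_eq_norm_sq, hz]; norm_num
  have hyx : ⟪y, x⟫ = 1 / 2 := by rw [real_inner_comm, hxy]
  have hzx : ⟪z, x⟫ = 1 / 2 := by rw [real_inner_comm, hxz]
  have hzy : ⟪z, y⟫ = 1 / 2 := by rw [real_inner_comm, hyz]
  have h3 : (s - a) • x + (b - t) • y + (d - c') • z = 0 := by
    have e1 : X z = X x - (a • x + c' • z) := by rw [← h1]; abel
    have e2 : X z = X y - (b • y + d • z) := by rw [← h2]; abel
    rw [hs] at e1
    rw [ht] at e2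
    have e3 : (s - a) • x + (b - t) • y + (d - c') • z
        = (o + s • x - (a • x + c' • z)) - (o + t • y - (b • y + d • z)) := by module
    rw [e3, ← e1, ← e2, sub_self]
  have g1 : ⟪(s - a) • x + (b - t) • y + (d - c') • z, x⟫ = 0 := by rw [h3, inner_zero_left]
  have g2 : ⟪(s - a) • x + (b - t) • y + (d - c') • z, y⟫ = 0 := by rw [h3, inner_zero_left]
  have g3 : ⟪(s - a) • x + (b - t) • y + (d - c') • z, z⟫ = 0 := by rw [h3, inner_zero_left]
  simp only [inner_add_left, real_inner_smul_left, hxx, hyy, hzz, hxy, hxz, hyz, hyx, hzx,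
    hzy] at g1 g2 g3
  have hsa : s = a := by linarith
  refine ⟨-c', ?_⟩
  have e1 : X z = X x - (a • x + c' • z) := by rw [← h1]; abel
  rw [e1, hs, hsa]
  module

lemma exists_angle {p q : ℝ} (h : p * p + q * q = 1) :
    ∃ t : ℝ, Real.cos t = p ∧ Real.sin t = q := by
  set z : ℂ := ⟨p, q⟩ with hz
  have hn : ‖z‖ = 1 := by
    have h1 : ‖z‖ ^ 2 = 1 := by
      rw [← Complex.normSq_eq_norm_sq, Complex.normSq_apply]; exact h
    nlinarith [norm_nonneg z]
  have hz0 : z ≠ 0 := by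
    intro h0; rw [h0, norm_zero] at hn; norm_num at hn
  refine ⟨Complex.arg z, ?_, ?_⟩
  · rw [Complex.cos_arg hz0, hn, div_one]
  · rw [Complex.sin_arg, hn, div_one]

/-- The angle `arccos (1/3)` is an irrational multiple of `2π`. -/
lemma irr : Irrational (Real.arccos (1 / 3) / (2 * Real.pi)) := by
  rintro ⟨q, hq⟩
  have hpi := Real.pi_pos
  have h1 : Real.arccos (1 / 3) = ((2 * q : ℚ) : ℝ) * Real.pi := by
    push_cast
    field_simp at hq
    linarith
  have hcos : Real.cos (Real.arccos (1 / 3)) = 1 / 3 :=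
    Real.cos_arccos (by norm_num) (by norm_num)
  have h2 := niven (θ := Real.arccos (1 / 3)) ⟨_, h1⟩ ⟨1 / 3, by rw [hcos]; norm_num⟩
  rw [hcos] at h2
  norm_num at h2

/-- If the normal lines in the directions `x` and `y₀` (at `60°`) meet at `o`, then so do
those in all directions at `60°` with `x`. -/
lemma on_circle (hc : Copl X) {w : ℝ} (hcont : ∀ u v : E3, ‖u‖ = 1 → ‖v‖ = 1 →
      ‖X u - X v‖ ^ 2 ≤ 2 * w ^ 2 * (1 - ⟪u, v⟫ + ‖u - v‖))
    {o x y₀ y : E3} (hx : ‖x‖ = 1) (hy₀ : ‖y₀‖ = 1) (hy : ‖y‖ = 1)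
    (hxy₀ : ⟪x, y₀⟫ = 1 / 2) (hxy : ⟪x, y⟫ = 1 / 2)
    (ox : On X o x) (oy₀ : On X o y₀) : On X o y := by
  obtain ⟨n, hn, hxn, hyn⟩ := exists_unit_orth x y₀
  have hF := frame_of_sixty hx hy₀ hn hxy₀ hxn hyn
  set r : ℝ := √3 / 2 with hr
  have hr2 : r * r = 3 / 4 := by
    rw [hr]
    nlinarith [Real.mul_self_sqrt (show (0 : ℝ) ≤ 3 by norm_num)]
  have hrpos : 0 < r := by rw [hr]; positivity
  set b : E3 := r⁻¹ • (y₀ - (1 / 2 : ℝ) • x) with hb
  have hxx : ⟪x, x⟫ = 1 := by rw [real_inner_self_eq_norm_sq, hx]; norm_num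
  have hbb : ⟪b, b⟫ = 1 := by rw [real_inner_self_eq_norm_sq, hF.b1]; norm_num
  have hnn : ⟪n, n⟫ = 1 := by rw [real_inner_self_eq_norm_sq, hn]; norm_num
  have hxb := hF.xb
  have hbn := hF.bn
  have hbx : ⟪b, x⟫ = 0 := by rw [real_inner_comm, hxb]
  have hnx : ⟪n, x⟫ = 0 := by rw [real_inner_comm, hxn]
  have hnb : ⟪n, b⟫ = 0 := by rw [real_inner_comm, hbn]
  have hy0b : y₀ = (1 / 2 : ℝ) • x + r • b := by
    rw [hb, smul_smul, mul_inv_cancel₀ hrpos.ne']; module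
  set Y : ℝ → E3 := fun t => (1 / 2 : ℝ) • x + (r * Real.cos t) • b + (r * Real.sin t) • n
    with hY
  have hYx : ∀ t, ⟪x, Y t⟫ = 1 / 2 := by
    intro t
    simp only [hY, inner_add_right, real_inner_smul_right, hxx, hxb, hxn]
    ring
  have hYY : ∀ s t, ⟪Y s, Y t⟫ = 1 / 4 + 3 / 4 * Real.cos (s - t) := by
    intro s t
    simp only [hY, inner_add_right, inner_add_left, real_inner_smul_right,
      real_inner_smul_left, hxx, hxb, hxn, hbb, hnn, hbn, hbx, hnx, hnb]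
    rw [Real.cos_sub]
    have : ∀ A B : ℝ, r * A * (r * B) = 3 / 4 * (A * B) := by
      intro A B; rw [← hr2]; ring
    nlinarith [this (Real.cos s) (Real.cos t), this (Real.sin s) (Real.sin t)]
  have hY1 : ∀ t, ‖Y t‖ = 1 := by
    intro t
    apply norm_one_of_sq
    rw [hYY, sub_self, Real.cos_zero]; norm_num
  have hYcont : Continuous Y := by
    simp only [hY]
    fun_prop
  have hXY : Continuous fun t => X (Y t) := by
    rw [continuous_iff_continuousAt]
    intro t₀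
    rw [ContinuousAt, tendsto_iff_norm_sub_tendsto_zero]
    have hbd : ∀ t, ‖X (Y t) - X (Y t₀)‖ ≤
        √(2 * w ^ 2 * (1 - ⟪Y t, Y t₀⟫ + ‖Y t - Y t₀‖)) := fun t =>
      Real.le_sqrt_of_sq_le (hcont _ _ (hY1 t) (hY1 t₀))
    refine squeeze_zero (fun t => norm_nonneg _) hbd ?_
    have h1 : Continuous fun t => √(2 * w ^ 2 * (1 - ⟪Y t, Y t₀⟫ + ‖Y t - Y t₀‖)) := by
      fun_prop
    have h2 := h1.tendsto t₀
    have h3 : √(2 * w ^ 2 * (1 - ⟪Y t₀, Y t₀⟫ + ‖Y t₀ - Y t₀‖)) = 0 := by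
      rw [hYY, sub_self, Real.cos_zero, sub_self, norm_zero]
      norm_num
    rwa [h3] at h2
  set S : Set ℝ := {t | On X o (Y t)} with hS
  have hSclosed : IsClosed S := by
    have h1 : S = {t | X (Y t) - o = ⟪X (Y t) - o, Y t⟫ • Y t} := by
      ext t
      constructor
      · rintro ⟨s, hs⟩
        show X (Y t) - o = ⟪X (Y t) - o, Y t⟫ • Y t
        have h2 : X (Y t) - o = s • Y t := by rw [hs]; abel
        rw [h2, real_inner_smul_left, real_inner_self_eq_norm_sq, hY1]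
        norm_num
      · intro h
        have h : X (Y t) - o = ⟪X (Y t) - o, Y t⟫ • Y t := h
        exact ⟨_, by rw [← h]; abel⟩
    rw [h1]
    have h2 : Continuous fun t => X (Y t) - o := hXY.sub continuous_const
    have h3 : Continuous fun t => ⟪X (Y t) - o, Y t⟫ := h2.inner hYcont
    exact isClosed_eq h2 (h3.smul hYcont)
  set θ : ℝ := Real.arccos (1 / 3) with hθ
  have hcos : Real.cos θ = 1 / 3 := Real.cos_arccos (by norm_num) (by norm_num)
  have hstep : ∀ s t, Real.cos (s - t) = 1 / 3 → s ∈ S → t ∈ S := by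
    intro s t hst hs
    refine on_third hc hx (hY1 s) (hY1 t) (hYx s) (hYx t) ?_ ox hs
    rw [hYY, hst]; norm_num
  have hinv : ∀ g ∈ AddSubgroup.closure ({θ, 2 * Real.pi} : Set ℝ), ∀ t, t + g ∈ S ↔ t ∈ S := by
    intro g hg
    induction hg using AddSubgroup.closure_induction with
    | mem g hg =>
      intro t
      rcases hg with rfl | hg
      · constructor
        · apply hstep; simpa using hcos
        · apply hstep; simpa using hcos
      · have hg : g = 2 * Real.pi := hg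
        subst hg
        have : Y (t + 2 * Real.pi) = Y t := by simp only [hY, Real.cos_add_two_pi,
          Real.sin_add_two_pi]
        show On X o (Y (t + 2 * Real.pi)) ↔ On X o (Y t)
        rw [this]
    | zero => intro t; rw [add_zero]
    | add g h _ _ hg hh =>
      intro t
      rw [← add_assoc, hh, hg]
    | neg g _ hg =>
      intro t
      have := hg (t + -g)
      rw [neg_add_cancel_right] at this
      exact this.symm
  have h0 : (0 : ℝ) ∈ S := by
    show On X o (Y 0)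
    have : Y 0 = y₀ := by
      rw [hy0b]
      simp [hY]
    rw [this]; exact oy₀
  have hall : S = univ := by
    have hd : Dense (AddSubgroup.closure ({θ, 2 * Real.pi} : Set ℝ) : Set ℝ) :=
      dense_addSubgroupClosure_pair_iff.2 irr
    have hsub : (AddSubgroup.closure ({θ, 2 * Real.pi} : Set ℝ) : Set ℝ) ⊆ S := by
      intro g hg
      have := (hinv g hg 0).2 h0
      rwa [zero_add] at this
    exact (hd.mono hsub).closure_eq ▸ hSclosed.closure_eq.symm
  -- `y` is on the circle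
  have hexp := hF.expand y
  rw [real_inner_comm, hxy] at hexp
  set p : ℝ := ⟪y, b⟫ with hp
  set q : ℝ := ⟪y, n⟫ with hq
  have hpq : p * p + q * q = 3 / 4 := by
    have h1 : ⟪y, y⟫ = 1 := by rw [real_inner_self_eq_norm_sq, hy]; norm_num
    rw [hexp] at h1
    simp only [inner_add_right, inner_add_left, real_inner_smul_right,
      real_inner_smul_left, hxx, hxb, hxn, hbb, hnn, hbn, hbx, hnx, hnb] at h1
    nlinarith
  obtain ⟨t, ht1, ht2⟩ := exists_angle (p := p / r) (q := q / r) (by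
    field_simp
    nlinarith)
  have hyY : Y t = y := by
    rw [hexp]
    simp only [hY]
    rw [ht1, ht2, mul_div_cancel₀ _ hrpos.ne', mul_div_cancel₀ _ hrpos.ne']
  have : t ∈ S := by rw [hall]; trivial
  rw [← hyY]
  exact this

/-- All normal lines of `K` pass through one point. -/
lemma exists_center (hc : Copl X) {w : ℝ} (hcont : ∀ u v : E3, ‖u‖ = 1 → ‖v‖ = 1 →
      ‖X u - X v‖ ^ 2 ≤ 2 * w ^ 2 * (1 - ⟪u, v⟫ + ‖u - v‖)) :
    ∃ o : E3, ∀ u : E3, ‖u‖ = 1 → On X o u := by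
  have step : ∀ o x y : E3, ‖x‖ = 1 → ‖y‖ = 1 → ⟪x, y⟫ = 1 / 2 →
      (On X o x ∧ ∀ z : E3, ‖z‖ = 1 → ⟪x, z⟫ = 1 / 2 → On X o z) →
      (On X o y ∧ ∀ z : E3, ‖z‖ = 1 → ⟪y, z⟫ = 1 / 2 → On X o z) := by
    intro o x y hx hy hxy h
    have hyx : ⟪y, x⟫ = 1 / 2 := by rw [real_inner_comm, hxy]
    exact ⟨h.2 y hy hxy, fun z hz hyz =>
      on_circle hc hcont hy hx hz hyx hyz (h.2 y hy hxy) h.1⟩
  have sixty : ∀ x v : E3, ‖x‖ = 1 → ‖v‖ = 1 → ⟪x, v⟫ = 0 →
      ∃ y : E3, ‖y‖ = 1 ∧ ⟪x, y⟫ = 1 / 2 ∧ ⟪y, v⟫ = 1 / 2 := by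
    intro x v hx hv hxv
    obtain ⟨n, hn, hxn, hvn⟩ := exists_unit_orth x v
    have hxx : ⟪x, x⟫ = 1 := by rw [real_inner_self_eq_norm_sq, hx]; norm_num
    have hvv : ⟪v, v⟫ = 1 := by rw [real_inner_self_eq_norm_sq, hv]; norm_num
    have hnn : ⟪n, n⟫ = 1 := by rw [real_inner_self_eq_norm_sq, hn]; norm_num
    have hvx : ⟪v, x⟫ = 0 := by rw [real_inner_comm, hxv]
    have hnx : ⟪n, x⟫ = 0 := by rw [real_inner_comm, hxn]
    have hnv : ⟪n, v⟫ = 0 := by rw [real_inner_comm, hvn]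
    set s : ℝ := (√2)⁻¹ with hs
    have hs2 : s * s = 1 / 2 := by
      rw [hs, ← mul_inv, Real.mul_self_sqrt (by norm_num)]; norm_num
    refine ⟨(1 / 2 : ℝ) • x + (1 / 2 : ℝ) • v + s • n, ?_, ?_, ?_⟩
    · apply norm_one_of_sq
      simp only [inner_add_left, inner_add_right, real_inner_smul_left, real_inner_smul_right,
        hxx, hvv, hnn, hxv, hxn, hvn, hvx, hnx, hnv]
      nlinarith
    · simp only [inner_add_right, real_inner_smul_right, hxx, hxv, hxn]
      norm_num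
    · simp only [inner_add_left, real_inner_smul_left, hvv, hxv, hnv]
      norm_num
  have orth : ∀ o x v : E3, ‖x‖ = 1 → ‖v‖ = 1 → ⟪x, v⟫ = 0 →
      (On X o x ∧ ∀ z : E3, ‖z‖ = 1 → ⟪x, z⟫ = 1 / 2 → On X o z) →
      (On X o v ∧ ∀ z : E3, ‖z‖ = 1 → ⟪v, z⟫ = 1 / 2 → On X o z) := by
    intro o x v hx hv hxv h
    obtain ⟨y, hy, hxy, hyv⟩ := sixty x v hx hv hxv
    exact step o y v hy hv hyv (step o x y hx hy hxy h)
  obtain ⟨x, hx, -, -⟩ := exists_unit_orth 0 0
  obtain ⟨v, hv, hxv, -⟩ := exists_unit_orth x x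
  obtain ⟨y, hy, hxy, -⟩ := sixty x v hx hv hxv
  obtain ⟨o, ox, oy⟩ := on_pair hc hx hy hxy
  have hgood : On X o x ∧ ∀ z : E3, ‖z‖ = 1 → ⟪x, z⟫ = 1 / 2 → On X o z :=
    ⟨ox, fun z hz hxz => on_circle hc hcont hx hy hz hxy hxz ox oy⟩
  refine ⟨o, fun u hu => ?_⟩
  obtain ⟨m, hm, hxm, hum⟩ := exists_unit_orth x u
  have hmu : ⟪m, u⟫ = 0 := by rw [real_inner_comm, hum]
  exact (orth o m u hm hu hmu (orth o x m hx hm hxm hgood)).1

/-- A function on the sphere with `|μ x - μ y| ≤ M (1 - ⟪x, y⟫)` is constant. -/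
lemma sphere_const {μ : E3 → ℝ} {M : ℝ}
    (h : ∀ x y : E3, ‖x‖ = 1 → ‖y‖ = 1 → |μ x - μ y| ≤ M * (1 - ⟪x, y⟫))
    {x y : E3} (hx : ‖x‖ = 1) (hy : ‖y‖ = 1) : μ x = μ y := by
  obtain ⟨n, hn, hxn, hyn⟩ := exists_unit_orth x y
  obtain ⟨b, hb, hxb, hnb⟩ := exists_unit_orth x n
  have hbn : ⟪b, n⟫ = 0 := by rw [real_inner_comm, hnb]
  have hF : Frame x b n := ⟨hx, hb, hn, hxb, hxn, hbn⟩
  have hxx : ⟪x, x⟫ = 1 := by rw [real_inner_self_eq_norm_sq, hx]; norm_num
  have hbb : ⟪b, b⟫ = 1 := by rw [real_inner_self_eq_norm_sq, hb]; norm_num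
  have hbx : ⟪b, x⟫ = 0 := by rw [real_inner_comm, hxb]
  have hM : 0 ≤ M := by
    have := h x (-x) hx (by rw [norm_neg, hx])
    rw [inner_neg_right, hxx] at this
    have h0 := abs_nonneg (μ x - μ (-x))
    linarith
  set γ : ℝ → E3 := fun t => Real.cos t • x + Real.sin t • b with hγ
  have hγγ : ∀ s t, ⟪γ s, γ t⟫ = Real.cos (s - t) := by
    intro s t
    simp only [hγ, inner_add_right, inner_add_left, real_inner_smul_right,
      real_inner_smul_left, hxx, hxb, hbb, hbx]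
    rw [Real.cos_sub]
    ring
  have hγ1 : ∀ t, ‖γ t‖ = 1 := by
    intro t
    apply norm_one_of_sq
    rw [hγγ, sub_self, Real.cos_zero]
  have hder : ∀ s, HasDerivAt (fun t => μ (γ t)) 0 s := by
    intro s
    have h1 : (fun t => μ (γ t) - μ (γ s)) =O[nhds s] fun t => ‖t - s‖ ^ 2 := by
      apply Asymptotics.IsBigO.of_bound (M / 2)
      refine Filter.Eventually.of_forall fun t => ?_
      have e1 := h (γ t) (γ s) (hγ1 t) (hγ1 s)
      rw [hγγ] at e1
      have e2 := Real.one_sub_sq_div_two_le_cos (x := t - s)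
      rw [Real.norm_eq_abs, Real.norm_eq_abs, Real.norm_eq_abs, abs_pow, abs_abs, sq_abs]
      have e3 : M * (1 - Real.cos (t - s)) ≤ M * ((t - s) ^ 2 / 2) := by
        apply mul_le_mul_of_nonneg_left _ hM
        linarith
      linarith
    have h2 := h1.hasFDerivAt (𝕜 := ℝ) (by norm_num)
    have h3 : HasDerivAt (fun t => μ (γ t) - μ (γ s)) 0 s := by
      have := h2.hasDerivAt
      simpa using this
    have h4 := h3.add_const (μ (γ s))
    simpa using h4
  have hconst : ∀ s t, μ (γ s) = μ (γ t) := by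
    intro s t
    have hd : Differentiable ℝ (fun t => μ (γ t)) := fun s => (hder s).differentiableAt
    exact is_const_of_deriv_eq_zero hd (fun s => (hder s).deriv) s t
  have hexp := hF.expand y
  rw [hyn, zero_smul, add_zero] at hexp
  have hpq : ⟪y, x⟫ * ⟪y, x⟫ + ⟪y, b⟫ * ⟪y, b⟫ = 1 := by
    have h1 : ⟪y, y⟫ = 1 := by rw [real_inner_self_eq_norm_sq, hy]; norm_num
    set p : ℝ := ⟪y, x⟫
    set q : ℝ := ⟪y, b⟫
    rw [hexp] at h1
    simp only [inner_add_right, inner_add_left, real_inner_smul_right,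
      real_inner_smul_left, hxx, hxb, hbb, hbx] at h1
    linarith
  obtain ⟨t, ht1, ht2⟩ := exists_angle hpq
  have e1 : γ 0 = x := by simp [hγ]
  have e2 : γ t = y := by
    simp only [hγ]
    rw [ht1, ht2]
    exact hexp.symm
  rw [← e1, ← e2]
  exact hconst 0 t

/-- A convex body satisfying the triple relation is a ball. -/
theorem ball_of_tripleSum (hconv : Convex ℝ K) (hcomp : IsCompact K)
    (hint : (interior K).Nonempty) (hX : IsSupp K X) (hsum : TripleSum X c) :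
    ∃ (o : E3) (r : ℝ), 0 < r ∧ K = closedBall o r := by
  set w : ℝ := 2 * c / 3 with hw
  have hwidth : ∀ x : E3, ‖x‖ = 1 → ⟪X x, x⟫ + ⟪X (-x), -x⟫ = w :=
    fun x hx => width_const hsum hx
  have hw0 : 0 ≤ w := by
    obtain ⟨x, hx, -, -⟩ := exists_unit_orth 0 0
    have h1 := (hX (-x)).2 _ (hX x).1
    have h2 := hwidth x hx
    rw [inner_neg_right] at h1
    linarith
  have hopp : ∀ x : E3, ‖x‖ = 1 → X x - X (-x) = w • x := by
    intro x hx
    apply supp_opp hX hw0 hwidth hx (hX x).1 (hX (-x)).1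
    have h2 := hwidth x hx
    rw [inner_neg_right] at h2
    rw [inner_sub_left]
    linarith
  have hcont : ∀ u v : E3, ‖u‖ = 1 → ‖v‖ = 1 →
      ‖X u - X v‖ ^ 2 ≤ 2 * w ^ 2 * (1 - ⟪u, v⟫ + ‖u - v‖) :=
    fun u v hu hv => supp_cont hX hw0 hwidth hopp hu hv
  have hcopl : Copl X := fun x y n hx hy hn hxy hxn hyn =>
    coplanar hX hsum hopp hx hy hn hxy hxn hyn
  obtain ⟨o, ho⟩ := exists_center hcopl hcont
  set μ : E3 → ℝ := fun u => ⟪X u - o, u⟫ with hμ
  have hXμ : ∀ u : E3, ‖u‖ = 1 → X u - o = μ u • u := by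
    intro u hu
    obtain ⟨s, hs⟩ := ho u hu
    have h2 : X u - o = s • u := by rw [hs]; abel
    simp only [hμ]
    rw [h2, real_inner_smul_left, real_inner_self_eq_norm_sq, hu]
    norm_num
  have hle : ∀ p ∈ K, ∀ u : E3, ⟪p - o, u⟫ ≤ μ u := by
    intro p hp u
    simp only [hμ]
    rw [inner_sub_left, inner_sub_left]
    have := (hX u).2 p hp
    linarith
  obtain ⟨M, hM⟩ : ∃ M : ℝ, ∀ p ∈ K, ‖p - o‖ ≤ M := by
    obtain ⟨M, hM⟩ := hcomp.isBounded.subset_closedBall o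
    exact ⟨M, fun p hp => by simpa [dist_eq_norm] using hM hp⟩
  have hμM : ∀ u : E3, ‖u‖ = 1 → μ u ≤ M := by
    intro u hu
    have h1 := hM _ (hX u).1
    have h2 := real_inner_le_norm (X u - o) u
    rw [hu, mul_one] at h2
    simp only [hμ]
    linarith
  have hμd : ∀ x y : E3, ‖x‖ = 1 → ‖y‖ = 1 → μ x - μ y ≤ M * (1 - ⟪x, y⟫) := by
    intro x y hx hy
    have h1 := hle _ (hX x).1 y
    rw [hXμ x hx, real_inner_smul_left] at h1
    have h2 : ⟪x, y⟫ ≤ 1 := by
      have := real_inner_le_norm x y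
      rwa [hx, hy, mul_one] at this
    have h3 := hμM x hx
    nlinarith
  have hμc : ∀ x y : E3, ‖x‖ = 1 → ‖y‖ = 1 → μ x = μ y := by
    intro x y hx hy
    apply sphere_const (M := M) _ hx hy
    intro x y hx hy
    rw [abs_le]
    have h1 := hμd x y hx hy
    have h2 := hμd y x hy hx
    rw [real_inner_comm] at h2
    constructor <;> linarith
  obtain ⟨e, he, -, -⟩ := exists_unit_orth 0 0
  set r : ℝ := μ e with hr
  have hμr : ∀ u : E3, ‖u‖ = 1 → μ u = r := fun u hu => hμc u e hu he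
  have hsub : K ⊆ closedBall o r := by
    intro p hp
    rw [mem_closedBall, dist_eq_norm]
    rcases eq_or_ne (p - o) 0 with h0 | h0
    · rw [h0, norm_zero]
      have h1 := hle p hp e
      rwa [h0, inner_zero_left] at h1
    · have hn : 0 < ‖p - o‖ := norm_pos_iff.2 h0
      set v : E3 := (‖p - o‖)⁻¹ • (p - o) with hv
      have hv1 : ‖v‖ = 1 := by rw [hv, norm_smul, norm_inv, norm_norm, inv_mul_cancel₀ hn.ne']
      have h1 := hle p hp v
      rw [hμr v hv1, hv, real_inner_smul_right, real_inner_self_eq_norm_sq, pow_two, ← mul_assoc,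
        inv_mul_cancel₀ hn.ne', one_mul] at h1
      exact h1
  have hsup : closedBall o r ⊆ K := by
    intro q hq
    by_contra hqK
    obtain ⟨f, s, hfs, hsq⟩ := geometric_hahn_banach_closed_point hconv hcomp.isClosed hqK
    set g : E3 := (InnerProductSpace.toDual ℝ E3).symm f with hg
    have hfg : ∀ x, f x = ⟪x, g⟫ := by
      intro x
      rw [hg, real_inner_comm, InnerProductSpace.toDual_symm_apply]
    have hg0 : g ≠ 0 := by
      intro h0
      have h1 := hfs _ (hX e).1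
      rw [hfg, h0, inner_zero_right] at h1
      rw [hfg, h0, inner_zero_right] at hsq
      linarith
    have hn : 0 < ‖g‖ := norm_pos_iff.2 hg0
    set v : E3 := (‖g‖)⁻¹ • g with hv
    have hv1 : ‖v‖ = 1 := by rw [hv, norm_smul, norm_inv, norm_norm, inv_mul_cancel₀ hn.ne']
    have hfv : ∀ x, f x = ‖g‖ * ⟪x, v⟫ := by
      intro x
      rw [hfg, hv, real_inner_smul_right, ← mul_assoc, mul_inv_cancel₀ hn.ne', one_mul]
    have h1 : f (X v) < f q := (hfs _ (hX v).1).trans hsq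
    rw [hfv, hfv] at h1
    have h2 : ⟪X v, v⟫ < ⟪q, v⟫ := lt_of_mul_lt_mul_left h1 hn.le
    have h3 : ⟪X v - o, v⟫ = r := hμr v hv1
    have h4 : ⟪q - o, v⟫ ≤ r := by
      refine (real_inner_le_norm _ _).trans ?_
      rw [hv1, mul_one, ← dist_eq_norm]
      exact hq
    rw [inner_sub_left] at h3 h4
    linarith
  refine ⟨o, r, ?_, Subset.antisymm hsub hsup⟩
  by_contra hr0
  push Not at hr0
  have h1 : K ⊆ {o} := by
    intro p hp
    have := hsub hp
    rw [mem_closedBall] at this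
    have h2 : dist p o = 0 := le_antisymm (this.trans hr0) dist_nonneg
    exact dist_eq_zero.1 h2
  have h2 := hint.mono (interior_mono h1)
  rw [interior_singleton] at h2
  exact Set.not_nonempty_empty h2

end core

/-! ### From the prism to the triple relation -/

lemma frame_of_triple {x y z : E3} (hx : ‖x‖ = 1) (hy : ‖y‖ = 1) (hz : ‖z‖ = 1)
    (h : x + y + z = 0) : ∃ n : E3, Frame x ((√3)⁻¹ • (y - z)) n := by
  have hxyz : x = -(y + z) := by
    have : x = (x + y + z) - (y + z) := by abel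
    rw [this, h, zero_sub]
  have hyy : ⟪y, y⟫ = 1 := by rw [real_inner_self_eq_norm_sq, hy]; norm_num
  have hzz : ⟪z, z⟫ = 1 := by rw [real_inner_self_eq_norm_sq, hz]; norm_num
  have hxx : ⟪x, x⟫ = 1 := by rw [real_inner_self_eq_norm_sq, hx]; norm_num
  have hzy : ⟪z, y⟫ = ⟪y, z⟫ := real_inner_comm _ _
  have hyz : ⟪y, z⟫ = -(1 / 2) := by
    rw [hxyz] at hxx
    simp only [inner_neg_left, inner_neg_right, inner_add_left, inner_add_right, hyy, hzz,
      hzy] at hxx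
    linarith
  obtain ⟨n, hn, hyn, hzn⟩ := exists_unit_orth y z
  refine ⟨n, hx, ?_, hn, ?_, ?_, ?_⟩
  · apply norm_one_of_sq
    simp only [inner_sub_left, inner_sub_right, real_inner_smul_left, real_inner_smul_right,
      hyy, hzz, hzy, hyz]
    have h3 : (√3)⁻¹ * (√3)⁻¹ = 1 / 3 := by
      rw [← mul_inv, Real.mul_self_sqrt (by norm_num)]; norm_num
    linarith
  · rw [hxyz]
    simp only [inner_sub_right, real_inner_smul_right, inner_neg_left,
      inner_add_left, hyy, hzz, hzy]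
    ring
  · rw [hxyz, inner_neg_left, inner_add_left, hyn, hzn]; norm_num
  · rw [real_inner_smul_left, inner_sub_left, hyn, hzn]; norm_num

lemma face_value {K : Set E3} {X : E3 → E3} (hX : IsSupp K X) {ρ : E3 ≃ₗᵢ[ℝ] E3} {t a u : E3}
    {R d : ℝ} (hR : 0 < R) (hu : ρ u = R⁻¹ • a) {T F : Set E3} (ha : ⟪ez, a⟫ = 0)
    (hT : ∀ p ∈ T, ⟪p, a⟫ ≤ d) (hF : ∀ p ∈ F, ⟪p, a⟫ = d)
    (hsub : (fun x => ρ x + t) '' K ⊆ cyl T)
    (hne : (((fun x => ρ x + t) '' K) ∩ cyl F).Nonempty) :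
    ⟪X u, u⟫ = R⁻¹ * (d - ⟪t, a⟫) := by
  have hρ : ∀ x : E3, ⟪x, u⟫ = R⁻¹ * ⟪ρ x, a⟫ := by
    intro x
    rw [← LinearIsometryEquiv.inner_map_map ρ x u, hu, real_inner_smul_right]
  have hRi : 0 < R⁻¹ := inv_pos.2 hR
  apply le_antisymm
  · obtain ⟨q, hq, s, hqs⟩ := hsub (mem_image_of_mem _ (hX u).1)
    have h1 : ⟪ρ (X u) + t, a⟫ ≤ d := by
      have : ρ (X u) + t = q + s • ez := hqs
      rw [this, inner_add_left, real_inner_smul_left, ha, mul_zero, add_zero]
      exact hT q hq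
    rw [inner_add_left] at h1
    rw [hρ]
    apply mul_le_mul_of_nonneg_left _ hRi.le
    linarith
  · obtain ⟨y, ⟨x, hx, hxy⟩, q, hq, s, hqs⟩ := hne
    have h1 : ⟪ρ x + t, a⟫ = d := by
      have e1 : ρ x + t = y := hxy
      rw [e1, hqs, inner_add_left, real_inner_smul_left, ha, mul_zero, add_zero]
      exact hF q hq
    rw [inner_add_left] at h1
    have h2 := (hX u).2 x hx
    rw [hρ x] at h2
    have h3 : ⟪ρ x, a⟫ = d - ⟪t, a⟫ := by linarith
    rw [h3] at h2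
    exact h2

lemma inner_ez (v : E3) : ⟪ez, v⟫ = v 2 := by
  unfold ez
  rw [EuclideanSpace.inner_single_left]
  simp

lemma hull_le {A B C a : E3} {d : ℝ} (hA : ⟪A, a⟫ ≤ d) (hB : ⟪B, a⟫ ≤ d) (hC : ⟪C, a⟫ ≤ d) :
    ∀ p ∈ convexHull ℝ ({A, B, C} : Set E3), ⟪p, a⟫ ≤ d := by
  have hconv : Convex ℝ {p : E3 | ⟪p, a⟫ ≤ d} := by
    intro p hp q hq s t hs ht hst
    have hp : ⟪p, a⟫ ≤ d := hp
    have hq : ⟪q, a⟫ ≤ d := hq
    show ⟪s • p + t • q, a⟫ ≤ d
    rw [inner_add_left, real_inner_smul_left, real_inner_smul_left]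
    have e1 : s * ⟪p, a⟫ ≤ s * d := mul_le_mul_of_nonneg_left hp hs
    have e2 : t * ⟪q, a⟫ ≤ t * d := mul_le_mul_of_nonneg_left hq ht
    have e3 : s * d + t * d = d := by rw [← add_mul, hst, one_mul]
    linarith
  intro p hp
  have := convexHull_min (s := ({A, B, C} : Set E3)) (t := {p : E3 | ⟪p, a⟫ ≤ d}) (by
    intro q hq
    rcases hq with rfl | rfl | hq
    · exact hA
    · exact hB
    · have hq : q = C := hq
      rw [hq]; exact hC) hconv hp
  exact this

lemma seg_eq {A B a : E3} {d : ℝ} (hA : ⟪A, a⟫ = d) (hB : ⟪B, a⟫ = d) :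
    ∀ p ∈ segment ℝ A B, ⟪p, a⟫ = d := by
  rintro p ⟨s, t, hs, ht, hst, rfl⟩
  rw [inner_add_left, real_inner_smul_left, real_inner_smul_left, hA, hB, ← add_mul, hst,
    one_mul]

/-- **Goldberg's question has a negative answer**: every convex body that is a rotor in a
regular triangular prism is a ball. -/
theorem result (A B C : E3) (hT : IsEquilateral A B C) (K : Set E3)
    (hconv : Convex ℝ K) (hcomp : IsCompact K) (hint : (interior K).Nonempty)
    (hrot : IsRotor A B C K) :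
    ∃ (o : E3) (r : ℝ), 0 < r ∧ K = closedBall o r := by
  obtain ⟨X, hX⟩ := exists_supp hcomp (hint.mono interior_subset)
  obtain ⟨hA2, hB2, hC2, hd0, hd1, hd2⟩ := hT
  set d : ℝ := dist A B with hd
  set e : E3 := B - A with he
  set f : E3 := C - A with hf
  have hee : ⟪e, e⟫ = d ^ 2 := by
    rw [real_inner_self_eq_norm_sq, he, ← dist_eq_norm, dist_comm]
  have hff : ⟪f, f⟫ = d ^ 2 := by
    rw [real_inner_self_eq_norm_sq, hf, ← dist_eq_norm, ← hd2, ← hd1]
  have hefef : ⟪e - f, e - f⟫ = d ^ 2 := by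
    have : e - f = B - C := by rw [he, hf]; abel
    rw [real_inner_self_eq_norm_sq, this, ← dist_eq_norm, ← hd1]
  have hfe : ⟪f, e⟫ = ⟪e, f⟫ := real_inner_comm _ _
  have hef : ⟪e, f⟫ = d ^ 2 / 2 := by
    simp only [inner_sub_left, inner_sub_right, hee, hff, hfe] at hefef
    linarith
  rw [hef] at hfe
  set R : ℝ := d / √3 with hR
  have hRpos : 0 < R := by rw [hR]; positivity
  have hR2 : R * R = d ^ 2 / 3 := by
    rw [hR, div_mul_div_comm, Real.mul_self_sqrt (by norm_num)]; ring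
  set a : E3 := (1 / 3 : ℝ) • (e + f) with ha
  set b : E3 := (1 / 3 : ℝ) • (f - (2 : ℝ) • e) with hb
  set c : E3 := (1 / 3 : ℝ) • (e - (2 : ℝ) • f) with hc
  have habc : a + b + c = 0 := by rw [ha, hb, hc]; module
  have hnorm : ∀ v : E3, ⟪v, v⟫ = d ^ 2 / 3 → ‖R⁻¹ • v‖ = 1 := by
    intro v hv
    apply norm_one_of_sq
    rw [real_inner_smul_left, real_inner_smul_right, hv, ← hR2]
    field_simp
  have na : ‖R⁻¹ • a‖ = 1 := by
    apply hnorm
    rw [ha]
    simp only [inner_add_left, inner_add_right, real_inner_smul_left, real_inner_smul_right,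
      hee, hff, hef, hfe]
    ring
  have nb : ‖R⁻¹ • b‖ = 1 := by
    apply hnorm
    rw [hb]
    simp only [inner_sub_left, inner_sub_right, real_inner_smul_left, real_inner_smul_right,
      hee, hff, hef, hfe]
    ring
  have nc : ‖R⁻¹ • c‖ = 1 := by
    apply hnorm
    rw [hc]
    simp only [inner_sub_left, inner_sub_right, real_inner_smul_left, real_inner_smul_right,
      hee, hff, hef, hfe]
    ring
  have hBe : B = A + e := by rw [he]; abel
  have hCf : C = A + f := by rw [hf]; abel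
  have hez_e : ⟪ez, e⟫ = 0 := by
    rw [inner_ez, he]; simp [hA2, hB2]
  have hez_f : ⟪ez, f⟫ = 0 := by
    rw [inner_ez, hf]; simp [hA2, hC2]
  have za : ⟪ez, a⟫ = 0 := by
    rw [ha, real_inner_smul_right, inner_add_right, hez_e, hez_f]; norm_num
  have zb : ⟪ez, b⟫ = 0 := by
    rw [hb, real_inner_smul_right, inner_sub_right, real_inner_smul_right, hez_e, hez_f]
    norm_num
  have zc : ⟪ez, c⟫ = 0 := by
    rw [hc, real_inner_smul_right, inner_sub_right, real_inner_smul_right, hez_e, hez_f]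
    norm_num
  have hd2pos : 0 ≤ d ^ 2 := sq_nonneg d
  -- the inner products of `e` and `f` with the normals
  have ea : ⟪e, a⟫ = d ^ 2 / 2 := by
    rw [ha, real_inner_smul_right, inner_add_right, hee, hef]; ring
  have fa : ⟪f, a⟫ = d ^ 2 / 2 := by
    rw [ha, real_inner_smul_right, inner_add_right, hff, hfe]; ring
  have eb : ⟪e, b⟫ = -(d ^ 2 / 2) := by
    rw [hb, real_inner_smul_right, inner_sub_right, real_inner_smul_right, hee, hef]; ring
  have fb : ⟪f, b⟫ = 0 := by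
    rw [hb, real_inner_smul_right, inner_sub_right, real_inner_smul_right, hff, hfe]; ring
  have ec : ⟪e, c⟫ = 0 := by
    rw [hc, real_inner_smul_right, inner_sub_right, real_inner_smul_right, hee, hef]; ring
  have fc : ⟪f, c⟫ = -(d ^ 2 / 2) := by
    rw [hc, real_inner_smul_right, inner_sub_right, real_inner_smul_right, hff, hfe]; ring
  have Ba : ⟪B, a⟫ = ⟪A, a⟫ + d ^ 2 / 2 := by rw [hBe, inner_add_left, ea]
  have Ca : ⟪C, a⟫ = ⟪A, a⟫ + d ^ 2 / 2 := by rw [hCf, inner_add_left, fa]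
  have Bb : ⟪B, b⟫ = ⟪A, b⟫ - d ^ 2 / 2 := by rw [hBe, inner_add_left, eb]; ring
  have Cb : ⟪C, b⟫ = ⟪A, b⟫ := by rw [hCf, inner_add_left, fb, add_zero]
  have Bc : ⟪B, c⟫ = ⟪A, c⟫ := by rw [hBe, inner_add_left, ec, add_zero]
  have Cc : ⟪C, c⟫ = ⟪A, c⟫ - d ^ 2 / 2 := by rw [hCf, inner_add_left, fc]; ring
  apply ball_of_tripleSum (X := X)
    (c := R⁻¹ * (⟪A, a⟫ + d ^ 2 / 2 + ⟪A, b⟫ + ⟪A, c⟫)) hconv hcomp hint hX
  intro x y z hx hy hz hxyz
  obtain ⟨n, hF⟩ := frame_of_triple hx hy hz hxyz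
  have hsum' : R⁻¹ • a + R⁻¹ • b + R⁻¹ • c = 0 := by
    rw [← smul_add, ← smul_add, habc, smul_zero]
  obtain ⟨n', hF'⟩ := frame_of_triple na nb nc hsum'
  obtain ⟨ρ, hρ, hρ1, hρ2⟩ := exists_rotation hF hF'
  have h3 : (√3 : ℝ) ≠ 0 := by positivity
  have hyz : ρ (y - z) = R⁻¹ • b - R⁻¹ • c := by
    have e1 : y - z = √3 • ((√3)⁻¹ • (y - z)) := by rw [smul_smul, mul_inv_cancel₀ h3, one_smul]
    rw [e1, map_smul, hρ2, smul_smul, mul_inv_cancel₀ h3, one_smul]
  have hρy : ρ y = R⁻¹ • b := by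
    have e1 : y = (1 / 2 : ℝ) • ((y - z) - x) := by
      have : z = -x - y := by
        have : z = (x + y + z) - x - y := by abel
        rw [this, hxyz]; abel
      rw [this]; module
    have e2 : R⁻¹ • c = -(R⁻¹ • a) - R⁻¹ • b := by
      have : R⁻¹ • c = (R⁻¹ • a + R⁻¹ • b + R⁻¹ • c) - R⁻¹ • a - R⁻¹ • b := by abel
      rw [this, hsum']; abel
    rw [e1, map_smul, map_sub, hyz, hρ1, e2]
    module
  have hρz : ρ z = R⁻¹ • c := by
    have : z = y - (y - z) := by abel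
    rw [this, map_sub, hyz, hρy]
    abel
  obtain ⟨t, hsub, hAB, hBC, hCA⟩ := hrot ρ hρ
  have v1 := face_value hX hRpos hρ1 za
    (hull_le (d := ⟪A, a⟫ + d ^ 2 / 2) (by linarith) Ba.le Ca.le) (seg_eq Ba Ca) hsub hBC
  have v2 := face_value hX hRpos hρy zb
    (hull_le (d := ⟪A, b⟫) le_rfl (by linarith) Cb.le) (seg_eq Cb rfl) hsub hCA
  have v3 := face_value hX hRpos hρz zc
    (hull_le (d := ⟪A, c⟫) le_rfl Bc.le (by linarith)) (seg_eq rfl Bc) hsub hAB
  rw [v1, v2, v3]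
  have ht : ⟪t, a⟫ + ⟪t, b⟫ + ⟪t, c⟫ = 0 := by
    rw [← inner_add_right, ← inner_add_right, habc, inner_zero_right]
  have : R⁻¹ * (⟪A, a⟫ + d ^ 2 / 2 - ⟪t, a⟫) + R⁻¹ * (⟪A, b⟫ - ⟪t, b⟫) +
      R⁻¹ * (⟪A, c⟫ - ⟪t, c⟫) = R⁻¹ * (⟪A, a⟫ + d ^ 2 / 2 + ⟪A, b⟫ + ⟪A, c⟫) -
      R⁻¹ * (⟪t, a⟫ + ⟪t, b⟫ + ⟪t, c⟫) := by ring
  rw [this, ht, mul_zero, sub_zero]

end Pool.Agent.Results.MP_c2e62a_gt.TriangularRotors
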